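import Mathlib

/-!
Skew pair families for the Hamming distance: `g(t; X) = 2 ^ (t + 1)` for every `t ≥ 0` and every
(finite or infinite) set `X` with at least two elements.

The upper bound is a rank argument over a field of characteristic 2.
-/

namespace Pool.Agent.Results.MP_41e757_co.PowerOfTwo

open Finset

/-- There is a skew `t`-family of length `m` over `X`: for some `n ≥ t + 1` there are strings
`a i, b i ∈ X ^ n` (`i < m`) with `dist (a i) (b i) ≥ t + 1` for all `i` and
`dist (a i) (b j) ≤ t` for all `i < j`. -/
def SkewFamily (t : ℕ) (X : Type*) [DecidableEq X] (m : ℕ) : Prop :=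
  ∃ (n : ℕ) (a b : Fin m → Fin n → X), t + 1 ≤ n ∧
    (∀ i, t + 1 ≤ hammingDist (a i) (b i)) ∧
    (∀ i j, i < j → hammingDist (a i) (b j) ≤ t)

section Forms

variable {K : Type*} [Field K] [DecidableEq K] {n : ℕ}

/-- The support of a vector. -/
def supp (u : Fin n → K) : Finset (Fin n) := univ.filter fun k => u k ≠ 0

lemma supp_update (u : Fin n → K) (k : Fin n) :
    supp (Function.update u k 0) = (supp u).erase k := by
  ext j
  simp only [supp, mem_filter, mem_univ, true_and, mem_erase]
  by_cases h : j = k
  · subst h; simp
  · simp [h]

/-- Generic forms: for every finite set `U` of vectors with supports of size at least `r` there is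
a function `Φ` which vanishes on all vectors with support smaller than `r`, does not vanish on `U`,
and is such that `Φ (a + b)` is a sum of `2 ^ r` products of a function of `a` and one of `b`. -/
lemma forms [CharP K 2] [Infinite K] (r : ℕ) : ∀ U : Finset (Fin n → K),
    (∀ u ∈ U, r ≤ (supp u).card) →
    ∃ (S : Type) (_ : Fintype S) (α β : (Fin n → K) → S → K) (Φ : (Fin n → K) → K),
      Fintype.card S = 2 ^ r ∧
      (∀ a b, Φ (a + b) = ∑ s, α a s * β b s) ∧
      (∀ k, ∃ Ψ : (Fin n → K) → K, ∀ u,
        Φ u = Φ (Function.update u k 0) + u k * Ψ (Function.update u k 0)) ∧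
      (∀ u, (supp u).card < r → Φ u = 0) ∧
      (∀ u ∈ U, Φ u ≠ 0) := by
  induction r with
  | zero =>
    intro U _
    exact ⟨Unit, inferInstance, fun _ _ => 1, fun _ _ => 1, fun _ => 1, by simp, by simp,
      fun k => ⟨fun _ => 0, by simp⟩, by simp, by simp⟩
  | succ r ih =>
    intro U hU
    let U' : Finset (Fin n → K) :=
      ((U ×ˢ (univ : Finset (Fin n))).image fun p => Function.update p.1 p.2 0).filter
        fun u => r ≤ (supp u).card
    obtain ⟨S, hS, α, β, Φ, hcard, hadd, haff, hzero, hne⟩ := ih U' (by
      intro u hu
      exact (mem_filter.1 hu).2)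
    -- the linear forms
    let c : (Fin n → K) → Fin n → K := fun u k => u k * Φ (Function.update u k 0)
    obtain ⟨x, hx⟩ := Module.Dual.exists_forall_ne_zero_of_forall_exists
      (ι := U) (K := K) (M := Fin n → K)
      (fun u => ∑ k, (c u.1 k) • (LinearMap.proj k : (Fin n → K) →ₗ[K] K)) (by
        rintro ⟨u, hu⟩
        have h1 : (supp u).Nonempty := by
          rw [← Finset.card_pos]
          have := hU u hu
          omega
        obtain ⟨k, hk⟩ := h1
        refine ⟨Pi.single k 1, ?_⟩
        have h2 : (∑ j, (c u j) • (LinearMap.proj j : (Fin n → K) →ₗ[K] K)) (Pi.single k 1) =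
            c u k := by
          simp [LinearMap.sum_apply, Pi.single_apply]
        rw [h2]
        have hk' : u k ≠ 0 := by simpa [supp] using hk
        refine mul_ne_zero hk' (hne _ ?_)
        refine mem_filter.2 ⟨mem_image.2 ⟨(u, k), ?_, rfl⟩, ?_⟩
        · simp [hu]
        · rw [supp_update, Finset.card_erase_of_mem hk]
          have := hU u hu
          omega)
    refine ⟨S ⊕ S, inferInstance,
      fun a => Sum.elim (α a) (fun s => ∑ k, x k * a k * α (Function.update a k 0) s),
      fun b => Sum.elim (fun s => ∑ k, x k * b k * β (Function.update b k 0) s) (β b),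
      fun u => ∑ k, x k * u k * Φ (Function.update u k 0), ?_, ?_, ?_, ?_, ?_⟩
    · rw [Fintype.card_sum, hcard]; ring
    · intro a b
      rw [Fintype.sum_sum_type]
      simp only [Sum.elim_inl, Sum.elim_inr, Finset.mul_sum, Finset.sum_mul]
      rw [Finset.sum_comm, Finset.sum_comm (γ := S)]
      rw [← Finset.sum_add_distrib]
      refine Finset.sum_congr rfl fun k _ => ?_
      have e1 : ∑ s, α a s * (x k * b k * β (Function.update b k 0) s) =
          x k * b k * Φ (a + Function.update b k 0) := by
        rw [hadd, Finset.mul_sum]
        exact Finset.sum_congr rfl fun s _ => by ring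
      have e2 : ∑ s, x k * a k * α (Function.update a k 0) s * β b s =
          x k * a k * Φ (Function.update a k 0 + b) := by
        rw [hadd, Finset.mul_sum]
        exact Finset.sum_congr rfl fun s _ => by ring
      rw [e1, e2]
      obtain ⟨Ψ, hΨ⟩ := haff k
      have u1 : Function.update (a + Function.update b k 0) k 0 = Function.update (a + b) k 0 := by
        ext j; by_cases h : j = k
        · subst h; simp
        · simp [Function.update_of_ne h]
      have u2 : Function.update (Function.update a k 0 + b) k 0 = Function.update (a + b) k 0 := by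
        ext j; by_cases h : j = k
        · subst h; simp
        · simp [Function.update_of_ne h]
      rw [hΨ (a + Function.update b k 0), hΨ (Function.update a k 0 + b), u1, u2]
      simp only [Pi.add_apply, Function.update_self, add_zero, zero_add]
      have h2 : (2 : K) = 0 := CharTwo.two_eq_zero
      linear_combination (-(x k * a k * b k * Ψ (Function.update (a + b) k 0))) * h2
    · intro k
      obtain ⟨Ψ, hΨ⟩ := haff k
      refine ⟨fun u => x k * Φ u +
        ∑ j ∈ univ.erase k, x j * u j * Ψ (Function.update u j 0), fun u => ?_⟩
      beta_reduce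
      rw [← Finset.add_sum_erase _ _ (mem_univ k), ← Finset.add_sum_erase univ
        (fun j => x j * Function.update u k 0 j *
          Φ (Function.update (Function.update u k 0) j 0)) (mem_univ k)]
      simp only [Function.update_self, mul_zero, zero_mul, zero_add, mul_add, Finset.mul_sum]
      have : ∀ j ∈ univ.erase k, x j * u j * Φ (Function.update u j 0) =
          x j * Function.update u k 0 j * Φ (Function.update (Function.update u k 0) j 0) +
          u k * (x j * Function.update u k 0 j *
            Ψ (Function.update (Function.update u k 0) j 0)) := by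
        intro j hj
        have hjk : j ≠ k := (mem_erase.1 hj).1
        rw [Function.update_of_ne hjk, hΨ (Function.update u j 0),
          Function.update_of_ne hjk.symm, Function.update_comm hjk]
        ring
      rw [Finset.sum_congr rfl this, Finset.sum_add_distrib]
      ring
    · intro u hu
      refine Finset.sum_eq_zero fun k _ => ?_
      by_cases hk : u k = 0
      · rw [hk]; ring
      · have hk' : k ∈ supp u := by simp [supp, hk]
        rw [hzero, mul_zero]
        rw [supp_update, Finset.card_erase_of_mem hk']
        have : 0 < (supp u).card := Finset.card_pos.2 ⟨k, hk'⟩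
        omega
    · intro u hu
      have := hx ⟨u, hu⟩
      have e : (∑ k, (c u k) • (LinearMap.proj k : (Fin n → K) →ₗ[K] K)) x =
          ∑ k, x k * u k * Φ (Function.update u k 0) := by
        rw [LinearMap.sum_apply]
        refine Finset.sum_congr rfl fun k _ => ?_
        simp only [c, LinearMap.smul_apply, LinearMap.proj_apply, smul_eq_mul]
        ring
      beta_reduce
      rw [← e]
      exact this

end Forms

/-- The upper bound, over a field. -/
lemma upper_field {K : Type*} [Field K] [DecidableEq K] [CharP K 2] [Infinite K] (t m n : ℕ)
    (a b : Fin m → Fin n → K) (h1 : ∀ i, t + 1 ≤ hammingDist (a i) (b i))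
    (h2 : ∀ i j, i < j → hammingDist (a i) (b j) ≤ t) : m ≤ 2 ^ (t + 1) := by
  have hs : ∀ u v : Fin n → K, (supp (u + v)).card = hammingDist u v := by
    intro u v
    unfold supp hammingDist
    congr 1
    ext k
    simp only [mem_filter, mem_univ, true_and, Pi.add_apply, ne_eq, CharTwo.add_eq_zero]
  obtain ⟨S, hS, α, β, Φ, hcard, hadd, -, hzero, hne⟩ := forms (t + 1)
    ((univ : Finset (Fin m)).image fun i => a i + b i) (by
      intro u hu
      obtain ⟨i, -, rfl⟩ := mem_image.1 hu
      rw [hs]
      exact h1 i)
  have hli : LinearIndependent K fun j => β (b j) := by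
    rw [Fintype.linearIndependent_iff]
    intro g hg
    have key : ∀ i, ∑ j, g j * Φ (a i + b j) = 0 := by
      intro i
      have e : ∀ s, ∑ j, g j * β (b j) s = 0 := by
        intro s
        have := congrFun hg s
        simpa using this
      calc ∑ j, g j * Φ (a i + b j) = ∑ j, ∑ s, α (a i) s * (g j * β (b j) s) := by
            refine Finset.sum_congr rfl fun j _ => ?_
            rw [hadd, Finset.mul_sum]
            exact Finset.sum_congr rfl fun s _ => by ring
        _ = ∑ s, α (a i) s * ∑ j, g j * β (b j) s := by
            rw [Finset.sum_comm]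
            exact Finset.sum_congr rfl fun s _ => by rw [Finset.mul_sum]
        _ = 0 := by simp [e]
    intro i
    induction i using WellFoundedLT.induction with
    | ind i ih =>
      have := key i
      rw [Finset.sum_eq_single i] at this
      · rcases mul_eq_zero.1 this with h | h
        · exact h
        · exact absurd h (hne _ (mem_image.2 ⟨i, mem_univ _, rfl⟩))
      · intro j _ hj
        rcases lt_or_gt_of_ne hj with h | h
        · rw [ih j h, zero_mul]
        · rw [hzero, mul_zero]
          rw [hs]
          have := h2 i j h
          omega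
      · intro h; exact absurd (mem_univ _) h
  have := hli.fintype_card_le_finrank
  rw [Module.finrank_fintype_fun_eq_card, hcard, Fintype.card_fin] at this
  exact this

theorem upper (t : ℕ) (X : Type*) [DecidableEq X] (m : ℕ) (h : SkewFamily t X m) :
    m ≤ 2 ^ (t + 1) := by
  classical
  obtain ⟨n, a, b, -, h1, h2⟩ := h
  let R := MvPolynomial (X ⊕ Unit) (ZMod 2)
  let K := FractionRing R
  have : Fact (Nat.Prime 2) := ⟨Nat.prime_two⟩
  have hinf : Infinite R := inferInstance
  have : Infinite K := Infinite.of_injective (algebraMap R K) (IsFractionRing.injective R K)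
  have : CharP R 2 := inferInstance
  have : CharP K 2 := charP_of_injective_algebraMap (IsFractionRing.injective R K) 2
  let ι : X → K := fun x => algebraMap R K (MvPolynomial.X (Sum.inl x))
  have hι : Function.Injective ι :=
    (IsFractionRing.injective R K).comp
      ((MvPolynomial.X_injective).comp Sum.inl_injective)
  have hd : ∀ u v : Fin n → X, hammingDist (fun k => ι (u k)) (fun k => ι (v k)) =
      hammingDist u v := by
    intro u v
    exact hammingDist_comp (fun _ => ι) (fun _ => hι)
  refine upper_field (K := K) t m n (fun i k => ι (a i k)) (fun i k => ι (b i k)) ?_ ?_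
  · intro i; rw [hd]; exact h1 i
  · intro i j hij; rw [hd]; exact h2 i j hij

theorem lower (t : ℕ) (X : Type*) [DecidableEq X] [Nontrivial X] :
    SkewFamily t X (2 ^ (t + 1)) := by
  obtain ⟨x, y, hxy⟩ := exists_pair_ne X
  have e : Fin (2 ^ (t + 1)) ≃ (Fin (t + 1) → Bool) :=
    Fintype.equivOfCardEq (by simp)
  refine ⟨t + 1, fun i k => if e i k then x else y, fun i k => if e i k then y else x, le_rfl,
    fun i => ?_, fun i j hij => ?_⟩
  · unfold hammingDist
    rw [Finset.filter_true_of_mem, Finset.card_univ, Fintype.card_fin]
    intro k _
    rcases h : e i k <;> simp [h, hxy, hxy.symm]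
  · have hne : e i ≠ e j := fun h => hij.ne (e.injective h)
    obtain ⟨k, hk⟩ := Function.ne_iff.1 hne
    unfold hammingDist
    have : (univ.filter fun k => (if e i k then x else y) ≠ (if e j k then y else x)) ⊆
        univ.erase k := by
      intro l hl
      rw [mem_erase]
      refine ⟨?_, mem_univ _⟩
      rintro rfl
      rw [mem_filter] at hl
      apply hl.2
      cases hi : e i l <;> cases hj : e j l <;> simp_all
    calc _ ≤ (univ.erase k : Finset (Fin (t + 1))).card := Finset.card_le_card this
      _ = t := by simp

/-- **Main theorem.** `g(t; X) = 2 ^ (t + 1)` for every `t ≥ 0` and every set `X` with at least two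
elements: `2 ^ (t + 1)` is the largest `m` for which a skew `t`-family of length `m` exists. -/
theorem result (t : ℕ) (X : Type*) [DecidableEq X] [Nontrivial X] :
    IsGreatest {m : ℕ | SkewFamily t X m} (2 ^ (t + 1)) :=
  ⟨lower t X, fun m hm => upper t X m hm⟩

end Pool.Agent.Results.MP_41e757_co.PowerOfTwo
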